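import Mathlib
import Pool.Agent.Helper58.GeoCycle.Defs
import Pool.Agent.Helper58.GeoCycle.Proof

set_option autoImplicit false

/-!
# A negative answer to the question on geodesic and peripheral cycles

The graph used is the tetrahedron with one extra vertex stacked into each of its four faces.
-/

namespace Pool.Agent.Results.MP_7b7a44_co.StackedTetrahedron

open Pool.Agent.Helper58.GeoCycle

/-- **There is a finite 3-connected graph such that for every assignment of positive lengths to its
edges some geodesic cycle is not peripheral.** -/
theorem result : ∃ (V : Type) (_ : Fintype V) (G : SimpleGraph V), ThreeConnected G ∧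
    ∀ ℓ : Sym2 V → ℝ, (∀ e ∈ G.edgeSet, 0 < ℓ e) →
      ∃ (v : V) (C : G.Walk v v), IsGeodesicCycle ℓ C ∧ ¬ IsPeripheralCycle C :=
  Pool.Agent.Helper58.GeoCycle.main

end Pool.Agent.Results.MP_7b7a44_co.StackedTetrahedron
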